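import Mathlib
import Pool.Agent.H932R5.Final

set_option autoImplicit false

/-!
# Fat points with arbitrary multiplicities in projective space of any dimension

Let `r ≥ 2`. For every `q` there is an `N` such that for all `k ≥ N`, all multiplicities
`m 1, …, m k` and `k` general points of `ℙ^r`:

* there is no form of degree `d` with these multiplicities if
  `(1 + k ^ (-q)) k ^ ((r - 1) / r) d ≤ ∑ m i`, or if `∑ m i ≤ k ^ q` and
  `k ^ ((r - 1) / r) d < ∑ m i` (the bound of Nagata's conjecture and its analogue in `ℙ^r`);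
* the fat point scheme imposes maximal conditions in degree `d` in these cases, and also if
  `d ≥ (1 + k ^ (-q)) k ^ (1 / r) (m i + r - 1)` for all `i`.

The points are `(1 : P i 0 : … : P i (r - 1))`.
-/

namespace Pool.Agent.Results.MP_0b14b0_ag.EveryDimension

open MvPolynomial

theorem result (r : ℕ) (hr : 2 ≤ r) (q : ℕ) :
    ∃ N : ℕ, ∀ k : ℕ, N ≤ k → ∀ m : Fin k → ℕ,
      ∃ F : MvPolynomial (Fin k × Fin r) ℂ, F ≠ 0 ∧
        ∀ P : Fin k → Fin r → ℂ,
          MvPolynomial.eval (fun ij : Fin k × Fin r => P ij.1 ij.2) F ≠ 0 →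
          ∀ d : ℕ,
            (0 < ∑ i, m i →
              ((1 + 1 / (k : ℝ) ^ q) * ((k : ℝ) ^ (((r : ℝ) - 1) / r) * d) ≤ ∑ i, (m i : ℝ) ∨
                (∑ i, m i ≤ k ^ q ∧ k ^ (r - 1) * d ^ r < (∑ i, m i) ^ r)) →
              ∀ G : MvPolynomial (Fin (r + 1)) ℂ, G.IsHomogeneous d →
                (∀ i, G ∈ (Ideal.span (Set.range fun j : Fin r =>
                  (X j.succ - C (P i j) * X 0 : MvPolynomial (Fin (r + 1)) ℂ))) ^ (m i)) →
                G = 0) ∧
            ((1 + 1 / (k : ℝ) ^ q) * ((k : ℝ) ^ (((r : ℝ) - 1) / r) * d) ≤ ∑ i, (m i : ℝ) ∨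
                (∑ i, m i ≤ k ^ q ∧ k ^ (r - 1) * d ^ r < (∑ i, m i) ^ r) ∨
                (∀ i, (1 + 1 / (k : ℝ) ^ q) *
                  ((k : ℝ) ^ (1 / (r : ℝ)) * ((m i : ℝ) + (r - 1))) ≤ d) →
              (Module.finrank ℂ
                ↥(MvPolynomial.homogeneousSubmodule (Fin (r + 1)) ℂ d ⊓
                  Submodule.restrictScalars ℂ
                    (⨅ i : Fin k, (Ideal.span (Set.range fun j : Fin r =>
                      (X j.succ - C (P i j) * X 0 :
                        MvPolynomial (Fin (r + 1)) ℂ))) ^ (m i))) : ℤ) =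
              max 0 ((Nat.choose (d + r) r : ℤ) -
                ∑ i, (Nat.choose (m i + r - 1) r : ℤ))) := by
  obtain ⟨E, rfl⟩ : ∃ E, r = E + 1 := ⟨r - 1, by omega⟩
  obtain ⟨N, hN1, hN⟩ := H932R5.final_thm E q
  refine ⟨N, fun k hk m => ?_⟩
  obtain ⟨F, hF, hF'⟩ := hN ℂ k hk m
  have e1 : (((E + 1 : ℕ) : ℝ) - 1) / ((E + 1 : ℕ) : ℝ) = (E : ℝ) / (E + 1) := by
    push_cast
    congr 1
    ring
  have e2 : 1 / ((E + 1 : ℕ) : ℝ) = 1 / ((E : ℝ) + 1) := by
    push_cast
    rfl
  have e3 : ∀ i, ((m i : ℝ) + (((E + 1 : ℕ) : ℝ) - 1)) = (m i : ℝ) + E := by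
    intro i
    push_cast
    ring
  refine ⟨F, hF, fun P hP d => ?_⟩
  obtain ⟨h1, h2⟩ := hF' P hP d
  refine ⟨fun hm hlow G hG hGm => ?_, fun hd => ?_⟩
  · have h3 : G ∈ H932R5.Vd d m P := by
      unfold H932R5.Vd
      rw [Submodule.mem_inf, mem_homogeneousSubmodule, Submodule.restrictScalars_mem,
        Ideal.mem_iInf]
      exact ⟨hG, hGm⟩
    rw [h1 hm (by
      rw [e1] at hlow
      exact hlow)] at h3
    exact h3
  · have h4 : H932R5.Low E q k m d ∨ H932R5.High E q k m d := by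
      simp only [e1, e2, e3] at hd
      rcases hd with hd | hd | hd
      · exact Or.inl (Or.inl hd)
      · exact Or.inl (Or.inr hd)
      · exact Or.inr hd
    have h5 := h2 h4
    have e4 : ∑ i, (Nat.choose (m i + (E + 1) - 1) (E + 1) : ℤ) =
        ((∑ i, (m i + E).choose (E + 1) : ℕ) : ℤ) := by
      push_cast
      rfl
    rw [e4]
    exact h5

end Pool.Agent.Results.MP_0b14b0_ag.EveryDimension
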